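import Pool.Agent.K3h46.AS.Stm3

/-!
# Project AS3 (MP_bd895b_nt): brick EULW (helper25)
-/

set_option autoImplicit false
set_option linter.all false

namespace Pool.Agent.K3h25.AS

open Pool.Agent.K3h46.AS

section

variable {F : Type} [Field F]

/-- `z d/dz` -/
theorem toZ_euler_z (W : Wt) (N : ℕ) (c : MvPolynomial (Fin 2) F) :
    (N : Polynomial F) * (toZ W c).coeff N =
      (toZ W ((W.n : MvPolynomial (Fin 2) F) * (MvPolynomial.X 0 * MvPolynomial.pderiv 0 c) +
        (W.m : MvPolynomial (Fin 2) F) * (MvPolynomial.X 1 * MvPolynomial.pderiv 1 c))).coeff N := by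
  induction c using MvPolynomial.induction_on' with
  | monomial s c =>
    rw [MvPolynomial.X_mul_pderiv_monomial, MvPolynomial.X_mul_pderiv_monomial]
    simp only [map_add, map_mul, map_natCast, map_nsmul, toZ_monomial, Polynomial.coeff_add]
    rw [← Polynomial.C_eq_natCast W.n, ← Polynomial.C_eq_natCast W.m, Polynomial.coeff_C_mul,
      Polynomial.coeff_C_mul, Polynomial.coeff_smul, Polynomial.coeff_smul,
      Polynomial.coeff_monomial]
    split_ifs with h
    · rw [← h]
      simp only [nsmul_eq_mul]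
      push_cast
      ring
    · simp
  | add a b ha hb =>
    have e : (W.n : MvPolynomial (Fin 2) F) * (MvPolynomial.X 0 * MvPolynomial.pderiv 0 (a + b)) +
        (W.m : MvPolynomial (Fin 2) F) * (MvPolynomial.X 1 * MvPolynomial.pderiv 1 (a + b)) =
        ((W.n : MvPolynomial (Fin 2) F) * (MvPolynomial.X 0 * MvPolynomial.pderiv 0 a) +
        (W.m : MvPolynomial (Fin 2) F) * (MvPolynomial.X 1 * MvPolynomial.pderiv 1 a)) +
        ((W.n : MvPolynomial (Fin 2) F) * (MvPolynomial.X 0 * MvPolynomial.pderiv 0 b) +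
        (W.m : MvPolynomial (Fin 2) F) * (MvPolynomial.X 1 * MvPolynomial.pderiv 1 b)) := by
      rw [map_add, map_add]; ring
    rw [e, map_add, map_add, Polynomial.coeff_add, Polynomial.coeff_add, ← ha, ← hb, mul_add]

/-- `u d/du` -/
theorem toZ_euler_u (W : Wt) (N : ℕ) (c : MvPolynomial (Fin 2) F) :
    Polynomial.X * Polynomial.derivative ((toZ W c).coeff N) =
      (toZ W ((W.be : MvPolynomial (Fin 2) F) * (MvPolynomial.X 0 * MvPolynomial.pderiv 0 c) +
        (W.al : MvPolynomial (Fin 2) F) * (MvPolynomial.X 1 * MvPolynomial.pderiv 1 c))).coeff N := by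
  induction c using MvPolynomial.induction_on' with
  | monomial s c =>
    rw [MvPolynomial.X_mul_pderiv_monomial, MvPolynomial.X_mul_pderiv_monomial]
    simp only [map_add, map_mul, map_natCast, map_nsmul, toZ_monomial, Polynomial.coeff_add]
    rw [← Polynomial.C_eq_natCast W.be, ← Polynomial.C_eq_natCast W.al, Polynomial.coeff_C_mul,
      Polynomial.coeff_C_mul, Polynomial.coeff_smul, Polynomial.coeff_smul,
      Polynomial.coeff_monomial]
    split_ifs with h
    · have h1 : ∀ (E : ℕ), Polynomial.X * Polynomial.derivative (Polynomial.monomial E c) =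
          (E : Polynomial F) * Polynomial.monomial E c := by
        intro E
        rcases E with _ | E
        · simp
        · rw [Polynomial.derivative_monomial, ← Polynomial.C_eq_natCast, Polynomial.C_mul_monomial,
            Nat.add_sub_cancel, Polynomial.X_mul_monomial]
          congr 1
          ring
      rw [h1]
      simp only [nsmul_eq_mul]
      push_cast
      ring
    · simp
  | add a b ha hb =>
    have e : (W.be : MvPolynomial (Fin 2) F) * (MvPolynomial.X 0 * MvPolynomial.pderiv 0 (a + b)) +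
        (W.al : MvPolynomial (Fin 2) F) * (MvPolynomial.X 1 * MvPolynomial.pderiv 1 (a + b)) =
        ((W.be : MvPolynomial (Fin 2) F) * (MvPolynomial.X 0 * MvPolynomial.pderiv 0 a) +
        (W.al : MvPolynomial (Fin 2) F) * (MvPolynomial.X 1 * MvPolynomial.pderiv 1 a)) +
        ((W.be : MvPolynomial (Fin 2) F) * (MvPolynomial.X 0 * MvPolynomial.pderiv 0 b) +
        (W.al : MvPolynomial (Fin 2) F) * (MvPolynomial.X 1 * MvPolynomial.pderiv 1 b)) := by
      rw [map_add, map_add]; ring
    rw [e, map_add, map_add, Polynomial.coeff_add, Polynomial.coeff_add, ← ha, ← hb,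
      Polynomial.derivative_add, mul_add]

theorem al_pos (W : Wt) : 0 < W.al := by
  rcases Nat.eq_zero_or_pos W.al with h | h
  · have := W.hab
    rw [h, zero_mul] at this
    omega
  · exact h

/-- The coefficients of `be x a + al t b` are divisible by `u`. -/
theorem coeff_zero_tW (W : Wt) (N : ℕ) (a b : MvPolynomial (Fin 2) F) :
    ((toZ W ((W.be : MvPolynomial (Fin 2) F) * (MvPolynomial.X 0 * a) +
      (W.al : MvPolynomial (Fin 2) F) * (MvPolynomial.X 1 * b))).coeff N).coeff 0 = 0 := by
  have h1 : ∀ P : Polynomial (Polynomial F), (P.coeff N).coeff 0 =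
      (Polynomial.mapRingHom (Polynomial.constantCoeff : Polynomial F →+* F) P).coeff N := by
    intro P
    rw [Polynomial.coe_mapRingHom, Polynomial.coeff_map]
    rfl
  rw [h1]
  have h2 : Polynomial.mapRingHom (Polynomial.constantCoeff : Polynomial F →+* F)
      (toZ W ((W.be : MvPolynomial (Fin 2) F) * (MvPolynomial.X 0 * a) +
      (W.al : MvPolynomial (Fin 2) F) * (MvPolynomial.X 1 * b))) = 0 := by
    rw [map_add, map_add]
    simp only [map_mul, map_natCast, toZ_X0, toZ_X1]
    have h3 : Polynomial.mapRingHom (Polynomial.constantCoeff : Polynomial F →+* F)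
        (Polynomial.C (Polynomial.X ^ W.al)) = 0 := by
      rw [Polynomial.coe_mapRingHom, Polynomial.map_C, map_pow]
      simp [(al_pos W).ne']
    rw [h3]
    rcases Nat.eq_zero_or_pos W.be with h | h
    · simp [h]
    · have h4 : Polynomial.mapRingHom (Polynomial.constantCoeff : Polynomial F →+* F)
          (Polynomial.C (Polynomial.X ^ W.be)) = 0 := by
        rw [Polynomial.coe_mapRingHom, Polynomial.map_C, map_pow]
        simp [h.ne']
      rw [h4]
      ring
  rw [h2, Polynomial.coeff_zero]

theorem X_mul_tW (W : Wt) (N : ℕ) (a b : MvPolynomial (Fin 2) F) :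
    Polynomial.X * tW W N a b =
      (toZ W ((W.be : MvPolynomial (Fin 2) F) * (MvPolynomial.X 0 * a) +
      (W.al : MvPolynomial (Fin 2) F) * (MvPolynomial.X 1 * b))).coeff N := by
  have h := Polynomial.divX_mul_X_add ((toZ W ((W.be : MvPolynomial (Fin 2) F) *
    (MvPolynomial.X 0 * a) + (W.al : MvPolynomial (Fin 2) F) * (MvPolynomial.X 1 * b))).coeff N)
  rw [coeff_zero_tW, map_zero, add_zero] at h
  rw [mul_comm]
  exact h

theorem X_mul_gW (W : Wt) (N : ℕ) (a b : MvPolynomial (Fin 2) F) :
    Polynomial.X * gW W N a b = (toZ W (curl a b)).coeff N := by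
  have e1 : Polynomial.X * gW W N a b = (N : Polynomial F) * (Polynomial.X * tW W N a b) -
      Polynomial.X * Polynomial.derivative (sW W N a b) := by
    unfold gW; ring
  rw [e1, X_mul_tW, toZ_euler_z, sW, toZ_euler_u, ← Polynomial.coeff_sub, ← map_sub]
  congr 2
  have hn : ∀ k : ℕ, ∀ i : Fin 2, MvPolynomial.pderiv i (k : MvPolynomial (Fin 2) F) = 0 := by
    intro k i
    exact (MvPolynomial.pderiv i).map_natCast k
  have h01 : MvPolynomial.pderiv (0 : Fin 2) (MvPolynomial.X 1 : MvPolynomial (Fin 2) F) = 0 :=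
    MvPolynomial.pderiv_X_of_ne (by decide)
  have h10 : MvPolynomial.pderiv (1 : Fin 2) (MvPolynomial.X 0 : MvPolynomial (Fin 2) F) = 0 :=
    MvPolynomial.pderiv_X_of_ne (by decide)
  have hab : (W.al : MvPolynomial (Fin 2) F) * W.n = W.be * W.m + 1 := by
    exact_mod_cast congrArg (Nat.cast (R := MvPolynomial (Fin 2) F)) W.hab
  simp only [map_add, Derivation.leibniz, smul_eq_mul, hn, h01, h10, MvPolynomial.pderiv_X_self,
    mul_zero, add_zero, zero_add, curl]
  linear_combination (MvPolynomial.X 0 * MvPolynomial.X 1 *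
    (MvPolynomial.pderiv 0 b - MvPolynomial.pderiv 1 a)) * hab

end

theorem t_EULW : S_EULW := by
  intro p hp W F _ _ f a b N hN hd
  refine ⟨?_, X_mul_gW W N a b⟩
  have hp1 : 0 < p - 1 := Nat.sub_pos_of_lt hp.out.one_lt
  have hd0 : 0 < W.d := Nat.pos_of_dvd_of_pos hd hp1
  have hk : 1 ≤ (p - 1) / W.d := Nat.div_pos (Nat.le_of_dvd hp1 hd) hd0
  have hdk : W.d * ((p - 1) / W.d) = p - 1 := Nat.mul_div_cancel' hd
  set k := (p - 1) / W.d with hkdef
  have hNk : 1 ≤ N * k := Nat.mul_pos hN hk
  have hdk' : (W.d : Polynomial F) * (k : Polynomial F) = -1 := by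
    have h1 : ((W.d * k : ℕ) : Polynomial F) + 1 = 0 := by
      rw [hdk]
      have h2 : ((p - 1 + 1 : ℕ) : Polynomial F) = 0 := by
        rw [Nat.sub_add_cancel hp.out.one_lt.le]
        exact CharP.cast_eq_zero _ p
      exact_mod_cast h2
    push_cast at h1
    linear_combination h1
  set ψ := (toZ W f).coeff W.d with hψ
  obtain ⟨r, hr⟩ : ∃ r, N * k = r + 1 := ⟨N * k - 1, by omega⟩
  have hr' : (r : Polynomial F) + 1 = (N : Polynomial F) * k := by
    have := congrArg (Nat.cast (R := Polynomial F)) hr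
    push_cast at this
    linear_combination -this
  rw [hr, Nat.add_sub_cancel]
  rw [Polynomial.derivative_mul, Polynomial.derivative_pow_succ,
    show (Polynomial.C ((r : F) + 1) : Polynomial F) = (r : Polynomial F) + 1 by simp, hr']
  unfold jW gW
  rw [← hψ]
  linear_combination (-(ψ ^ r * Polynomial.derivative ψ * sW W N a b) * N) * hdk'

end Pool.Agent.K3h25.AS
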