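import Pool.Agent.K3h25.AS.Eulw

/-!
# Project AS3 (MP_bd895b_nt): brick FACW (helper25)
-/

set_option autoImplicit false
set_option linter.all false

namespace Pool.Agent.K3h25.AS

open Pool.Agent.K3h46.AS

section

variable {F κ : Type} [Field F] [Field κ]

theorem evz_C (ι : Polynomial F →+* κ) (z : LaurentSeries κ) (c : Polynomial F) :
    evz ι z (Polynomial.C c) = HahnSeries.C (ι c) := by
  simp [evz]

theorem evz_X (ι : Polynomial F →+* κ) (z : LaurentSeries κ) :
    evz ι z Polynomial.X = z := by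
  simp [evz]

theorem evz_X0 (W : Wt) (ι : Polynomial F →+* κ) (z : LaurentSeries κ) :
    evz ι z (toZ W (MvPolynomial.X 0)) = HahnSeries.C (ι (Polynomial.X ^ W.be)) * z ^ W.n := by
  rw [toZ_X0, map_mul (evz ι z), evz_C, map_pow (evz ι z), evz_X]

theorem evz_X1 (W : Wt) (ι : Polynomial F →+* κ) (z : LaurentSeries κ) :
    evz ι z (toZ W (MvPolynomial.X 1)) = HahnSeries.C (ι (Polynomial.X ^ W.al)) * z ^ W.m := by
  rw [toZ_X1, map_mul (evz ι z), evz_C, map_pow (evz ι z), evz_X]

theorem theta_C (θ : Derivation ℤ (LaurentSeries κ) (LaurentSeries κ))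
    (hθ : ∀ (z : LaurentSeries κ) (n : ℤ), (θ z).coeff n = (n : κ) * z.coeff n) (c : κ) :
    θ (HahnSeries.C c) = 0 := by
  ext n
  rw [hθ, HahnSeries.C_apply, HahnSeries.coeff_single, HahnSeries.coeff_zero]
  split_ifs with h
  · rw [h]; simp
  · rw [mul_zero]

theorem delta_C (δ : Derivation ℤ κ κ) (Δ : Derivation ℤ (LaurentSeries κ) (LaurentSeries κ))
    (hΔ : ∀ (z : LaurentSeries κ) (n : ℤ), (Δ z).coeff n = δ (z.coeff n)) (c : κ) :
    Δ (HahnSeries.C c) = HahnSeries.C (δ c) := by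
  ext n
  rw [hΔ, HahnSeries.C_apply, HahnSeries.C_apply, HahnSeries.coeff_single, HahnSeries.coeff_single]
  split_ifs with h
  · rfl
  · exact map_zero δ

/-- `θ (c z ^ n)` -/
theorem theta_mon (θ : Derivation ℤ (LaurentSeries κ) (LaurentSeries κ))
    (hθ : ∀ (z : LaurentSeries κ) (n : ℤ), (θ z).coeff n = (n : κ) * z.coeff n) (c : κ)
    (z : LaurentSeries κ) (hz : z ≠ 0) (n : ℕ) :
    θ (HahnSeries.C c * z ^ n) = (n : LaurentSeries κ) * (HahnSeries.C c * z ^ n) * (θ z / z) := by
  rw [Derivation.leibniz, theta_C θ hθ, smul_zero, add_zero, Derivation.leibniz_pow]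
  simp only [smul_eq_mul, nsmul_eq_mul]
  rcases n with _ | n
  · simp
  · rw [Nat.add_sub_cancel]
    field_simp
    ring

/-- `u Δ (u ^ b z ^ n)` -/
theorem delta_mon (ι : Polynomial F →+* κ) (δ : Derivation ℤ κ κ)
    (hδ : ∀ g, δ (ι g) = ι (Polynomial.derivative g))
    (Δ : Derivation ℤ (LaurentSeries κ) (LaurentSeries κ))
    (hΔ : ∀ (z : LaurentSeries κ) (n : ℤ), (Δ z).coeff n = δ (z.coeff n))
    (z : LaurentSeries κ) (hz : z ≠ 0) (b n : ℕ) :
    HahnSeries.C (ι Polynomial.X) * Δ (HahnSeries.C (ι (Polynomial.X ^ b)) * z ^ n) =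
      (b : LaurentSeries κ) * (HahnSeries.C (ι (Polynomial.X ^ b)) * z ^ n) +
      HahnSeries.C (ι Polynomial.X) * ((n : LaurentSeries κ) *
        (HahnSeries.C (ι (Polynomial.X ^ b)) * z ^ n) * (Δ z / z)) := by
  rw [Derivation.leibniz, delta_C δ Δ hΔ, hδ, Derivation.leibniz_pow]
  simp only [smul_eq_mul, nsmul_eq_mul]
  have h1 : HahnSeries.C (ι Polynomial.X) * HahnSeries.C (ι (Polynomial.derivative
      (Polynomial.X ^ b : Polynomial F))) = (b : LaurentSeries κ) *
      HahnSeries.C (ι (Polynomial.X ^ b)) := by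
    rcases b with _ | b
    · simp
    · rw [← map_mul, ← map_mul, Polynomial.derivative_X_pow, Nat.add_sub_cancel]
      rw [show (Polynomial.X : Polynomial F) * (Polynomial.C ((b + 1 : ℕ) : F) *
        Polynomial.X ^ b) = ((b + 1 : ℕ) : Polynomial F) * Polynomial.X ^ (b + 1) by
          rw [Polynomial.C_eq_natCast]; ring]
      rw [map_mul, map_mul, map_natCast, map_natCast]
  have h2 : (n : LaurentSeries κ) * (z ^ (n - 1) * Δ z) =
      (n : LaurentSeries κ) * z ^ n * (Δ z / z) := by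
    rcases n with _ | n
    · simp
    · rw [Nat.add_sub_cancel]
      field_simp
      ring
  rw [h2, mul_add]
  linear_combination (z ^ n) * h1

end

theorem t_FACW : S_AN1P → S_FACW := by
  intro hAN p hp W F _ _ f hd hdeg htop κ _ _ ι hι δ hδ θ Δ hθ hΔ z hz N a b hN ha hb
  have hp1 : 0 < p - 1 := Nat.sub_pos_of_lt hp.out.one_lt
  have hd0 : 0 < W.d := Nat.pos_of_dvd_of_pos hd hp1
  have hz0 : z ≠ 0 := by
    intro h
    have h1 := hz.top
    rw [h, HahnSeries.coeff_zero] at h1
    exact pow_ne_zero _ ((map_ne_zero_iff ι hι).2 htop) h1.symm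
  set A := toZ W ((W.n : MvPolynomial (Fin 2) F) * (MvPolynomial.X 0 * a) +
    (W.m : MvPolynomial (Fin 2) F) * (MvPolynomial.X 1 * b)) with hA
  set Q := toZ W ((W.be : MvPolynomial (Fin 2) F) * (MvPolynomial.X 0 * a) +
    (W.al : MvPolynomial (Fin 2) F) * (MvPolynomial.X 1 * b)) with hQ
  have hcast : ∀ (k : ℕ) (P : Polynomial (Polynomial F)), P.natDegree ≤ N →
      ((k : Polynomial (Polynomial F)) * P).natDegree ≤ N := by
    intro k P hP
    rw [← Polynomial.C_eq_natCast]
    exact (Polynomial.natDegree_C_mul_le _ _).trans hP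
  have hAdeg : A.natDegree ≤ N := by
    have e : A = (W.n : Polynomial (Polynomial F)) * toZ W (MvPolynomial.X 0 * a) +
        (W.m : Polynomial (Polynomial F)) * toZ W (MvPolynomial.X 1 * b) := by
      rw [hA]
      simp only [map_add, map_mul, map_natCast]
    rw [e]
    exact Polynomial.natDegree_add_le_of_degree_le (hcast _ _ ha) (hcast _ _ hb)
  have hQdeg : Q.natDegree ≤ N := by
    have e : Q = (W.be : Polynomial (Polynomial F)) * toZ W (MvPolynomial.X 0 * a) +
        (W.al : Polynomial (Polynomial F)) * toZ W (MvPolynomial.X 1 * b) := by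
      rw [hQ]
      simp only [map_add, map_mul, map_natCast]
    rw [e]
    exact Polynomial.natDegree_add_le_of_degree_le (hcast _ _ ha) (hcast _ _ hb)
  obtain ⟨B, hB⟩ : Polynomial.C Polynomial.X ∣ Q := by
    rw [Polynomial.C_dvd_iff_dvd_coeff]
    intro i
    exact ⟨tW W i a b, (X_mul_tW W i a b).symm⟩
  have hX0 : (Polynomial.X : Polynomial F) ≠ 0 := Polynomial.X_ne_zero
  have hBdeg : B.natDegree ≤ N := by
    rw [hB, Polynomial.natDegree_C_mul hX0] at hQdeg
    exact hQdeg
  have hBN : B.coeff N = tW W N a b := by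
    have h1 := X_mul_tW W N a b
    rw [← hQ, hB, Polynomial.coeff_C_mul] at h1
    exact (mul_left_cancel₀ hX0 h1).symm
  have key := hAN p W.d F (toZ W f) hd0 hd hdeg htop κ ι hι δ hδ θ Δ hθ hΔ z hz N A B hN hAdeg
    hBdeg
  rw [hBN] at key
  have hu : HahnSeries.C (ι Polynomial.X) ≠ (0 : LaurentSeries κ) := by
    rw [map_ne_zero_iff _ HahnSeries.C_injective]
    exact (map_ne_zero_iff ι hι).2 hX0
  have e1 : evz ι z A * (θ z / z) =
      evz ι z (toZ W a) * θ (evz ι z (toZ W (MvPolynomial.X 0))) +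
        evz ι z (toZ W b) * θ (evz ι z (toZ W (MvPolynomial.X 1))) := by
    rw [evz_X0, evz_X1, theta_mon θ hθ _ z hz0, theta_mon θ hθ _ z hz0, ← evz_X0, ← evz_X1, hA]
    simp only [map_add, map_mul, map_natCast]
    ring
  have e2 : evz ι z A * (Δ z / z) + evz ι z B =
      evz ι z (toZ W a) * Δ (evz ι z (toZ W (MvPolynomial.X 0))) +
        evz ι z (toZ W b) * Δ (evz ι z (toZ W (MvPolynomial.X 1))) := by
    apply mul_left_cancel₀ hu
    have h3 := delta_mon ι δ hδ Δ hΔ z hz0 W.be W.n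
    have h4 := delta_mon ι δ hδ Δ hΔ z hz0 W.al W.m
    rw [← evz_X0] at h3
    rw [← evz_X1] at h4
    have h5 : HahnSeries.C (ι Polynomial.X) * evz ι z B = evz ι z Q := by
      rw [hB, map_mul, evz_C]
    have h6 : evz ι z Q = (W.be : LaurentSeries κ) *
        (evz ι z (toZ W (MvPolynomial.X 0)) * evz ι z (toZ W a)) +
        (W.al : LaurentSeries κ) *
        (evz ι z (toZ W (MvPolynomial.X 1)) * evz ι z (toZ W b)) := by
      rw [hQ]
      simp only [map_add, map_mul, map_natCast]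
    have h7 : evz ι z A = (W.n : LaurentSeries κ) *
        (evz ι z (toZ W (MvPolynomial.X 0)) * evz ι z (toZ W a)) +
        (W.m : LaurentSeries κ) *
        (evz ι z (toZ W (MvPolynomial.X 1)) * evz ι z (toZ W b)) := by
      rw [hA]
      simp only [map_add, map_mul, map_natCast]
    rw [mul_add, h5, h6, h7]
    linear_combination (-evz ι z (toZ W a)) * h3 - evz ι z (toZ W b) * h4
  rw [← e1, ← e2]
  exact key

end Pool.Agent.K3h25.AS
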